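import Pool.Agent.Helper72.SE.Circ

/-!
# Module SE-BAD: few circles of the sphere lie in the zero set of a nonzero polynomial
-/

set_option autoImplicit false

open Polynomial

namespace Pool.Agent.Helper72.SE

open Pool.Agent.Helper27.SE

/-! ### finite fibres -/

/-- points of the unit sphere with first two coordinates in finite sets -/
theorem finite_of_coords {F : Set ℝ} {G : ℝ → Set ℝ} (hF : F.Finite) (hG : ∀ x, (G x).Finite) :
    {a : E3 | a 0 ^ 2 + a 1 ^ 2 + a 2 ^ 2 = 1 ∧ a 0 ∈ F ∧ a 1 ∈ G (a 0)}.Finite := by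
  have hsq : ∀ c : ℝ, {z : ℝ | z ^ 2 = c}.Finite := by
    intro c
    have h : {z : ℝ | z ^ 2 = c} ⊆ ((X ^ 2 - C c : ℝ[X]).roots.toFinset : Set ℝ) := by
      intro z hz
      have hz : z ^ 2 = c := hz
      have h1 : (X ^ 2 - C c : ℝ[X]) ≠ 0 := (monic_X_pow_sub_C c two_ne_zero).ne_zero
      simp [h1, hz]
    exact (Finset.finite_toSet _).subset h
  refine Set.Finite.of_finite_fibers (fun a : E3 => a 0) (hF.subset ?_) ?_
  · rintro _ ⟨a, ha, rfl⟩
    exact ha.2.1
  · intro x _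
    refine Set.Finite.of_finite_fibers (fun a : E3 => a 1) ((hG x).subset ?_) ?_
    · rintro _ ⟨a, ⟨ha, hx⟩, rfl⟩
      have hx : a 0 = x := hx
      rw [← hx]
      exact ha.2.2
    · intro y _
      refine Set.Finite.of_finite_fibers (fun a : E3 => a 2) ((hsq (1 - x ^ 2 - y ^ 2)).subset ?_) ?_
      · rintro _ ⟨a, ⟨⟨ha, hx⟩, hy⟩, rfl⟩
        have hx : a 0 = x := hx
        have hy : a 1 = y := hy
        change (a 2) ^ 2 = _
        rw [← hx, ← hy]
        linarith [ha.1]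
      · intro z _
        refine Set.Subsingleton.finite ?_
        rintro a ⟨⟨⟨-, ha0⟩, ha1⟩, ha2⟩ b ⟨⟨⟨-, hb0⟩, hb1⟩, hb2⟩
        have ha0 : a 0 = x := ha0
        have ha1 : a 1 = y := ha1
        have ha2 : a 2 = z := ha2
        have hb0 : b 0 = x := hb0
        have hb1 : b 1 = y := hb1
        have hb2 : b 2 = z := hb2
        exact ext3 (ha0.trans hb0.symm) (ha1.trans hb1.symm) (ha2.trans hb2.symm)

/-- roots of a nonzero polynomial form a finite set -/
theorem roots_finite {p : ℝ[X]} (hp : p ≠ 0) : {x : ℝ | p.eval x = 0}.Finite := by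
  have h : {x : ℝ | p.eval x = 0} ⊆ (p.roots.toFinset : Set ℝ) := by
    intro z hz
    have hz : p.eval z = 0 := hz
    simp [hp, hz]
  exact (Finset.finite_toSet _).subset h

theorem eq_zero_of_inf {p : ℝ[X]} (h : {x : ℝ | p.eval x = 0}.Infinite) : p = 0 := by
  by_contra hp
  exact h (roots_finite hp)

/-! ### the conic of a circle which is not vertical -/

/-- the conic, monic in the second variable -/
noncomputable def pp (s : E3) : ℝ[X] :=
  C (-2 * s 1 / (s 1 ^ 2 + s 2 ^ 2)) * (C ((s 0 ^ 2 + s 1 ^ 2 + s 2 ^ 2) / 2) - C (s 0) * X)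

noncomputable def qq (s : E3) : ℝ[X] :=
  C (1 / (s 1 ^ 2 + s 2 ^ 2)) *
    ((C ((s 0 ^ 2 + s 1 ^ 2 + s 2 ^ 2) / 2) - C (s 0) * X) ^ 2 + C (s 2 ^ 2) * X ^ 2 - C (s 2 ^ 2))

noncomputable def conic (s : E3) : ℝ[X][X] := X ^ 2 + (C (pp s) * X + C (qq s))

theorem conic_monic (s : E3) : (conic s).Monic :=
  monic_X_pow_add (lt_of_le_of_lt (degree_linear_le) (by norm_num))

theorem conic_natDegree (s : E3) : (conic s).natDegree = 2 := by
  unfold conic
  rw [natDegree_add_eq_left_of_natDegree_lt, natDegree_X_pow]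
  rw [natDegree_X_pow]
  exact lt_of_le_of_lt natDegree_linear_le one_lt_two

theorem conic_ev (s : E3) (x y : ℝ) : (conic s).evalEval x y =
    y ^ 2 + ((pp s).eval x * y + (qq s).eval x) := by
  unfold conic
  rw [evalEval_add, evalEval_add, evalEval_pow, evalEval_mul, evalEval_X, evalEval_C, evalEval_C]

/-- the conic is the sphere equation restricted to the plane -/
theorem conic_eq {s : E3} (h2 : s 2 ≠ 0) (x y : ℝ) :
    (s 1 ^ 2 + s 2 ^ 2) * (conic s).evalEval x y = s 2 ^ 2 * (x ^ 2 + y ^ 2 - 1) +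
      ((s 0 ^ 2 + s 1 ^ 2 + s 2 ^ 2) / 2 - s 0 * x - s 1 * y) ^ 2 := by
  have hD : s 1 ^ 2 + s 2 ^ 2 ≠ 0 := by positivity
  rw [conic_ev]
  unfold pp qq
  simp only [eval_mul, eval_sub, eval_add, eval_pow, eval_C, eval_X]
  field_simp
  ring

theorem conic_on {s : E3} (h2 : s 2 ≠ 0) {a : E3} (ha : On s a) : ev (conic s) a = 0 := by
  have hD : s 1 ^ 2 + s 2 ^ 2 ≠ 0 := by positivity
  obtain ⟨h1, h3⟩ := on_iff.1 ha
  have h4 := conic_eq h2 (a 0) (a 1)
  have h5 : (s 0 ^ 2 + s 1 ^ 2 + s 2 ^ 2) / 2 - s 0 * a 0 - s 1 * a 1 = s 2 * a 2 := by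
    linarith
  rw [h5] at h4
  have h6 : (s 1 ^ 2 + s 2 ^ 2) * (conic s).evalEval (a 0) (a 1) = 0 := by
    rw [h4]
    linear_combination (s 2 ^ 2) * h1
  exact (mul_eq_zero.1 h6).resolve_left hD

/-- the mirror image -/
noncomputable def mir (s : E3) : E3 := !₂[s 0, s 1, -s 2]

theorem conic_off {s : E3} (h2 : s 2 ≠ 0) {a : E3} (ha : a 0 ^ 2 + a 1 ^ 2 + a 2 ^ 2 = 1)
    (h : ev (conic s) a = 0) : On s a ∨ On (mir s) a := by
  have h4 := conic_eq h2 (a 0) (a 1)
  have h0 : (conic s).evalEval (a 0) (a 1) = 0 := h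
  rw [h0, mul_zero] at h4
  have h5 : ((s 0 ^ 2 + s 1 ^ 2 + s 2 ^ 2) / 2 - s 0 * a 0 - s 1 * a 1 - s 2 * a 2) *
      ((s 0 ^ 2 + s 1 ^ 2 + s 2 ^ 2) / 2 - s 0 * a 0 - s 1 * a 1 + s 2 * a 2) = 0 := by
    linear_combination (-1 : ℝ) * h4 - (s 2 ^ 2) * ha
  rcases mul_eq_zero.1 h5 with h6 | h6
  · left
    exact on_iff.2 ⟨ha, by linarith⟩
  · right
    refine on_iff.2 ⟨ha, ?_⟩
    have e0 : mir s 0 = s 0 := rfl
    have e1 : mir s 1 = s 1 := rfl
    have e2 : mir s 2 = -s 2 := rfl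
    rw [e0, e1, e2]
    linarith

/-- a polynomial which vanishes at infinitely many points of a non-vertical circle is divisible by
its conic -/
theorem conic_dvd {s : E3} (h2 : s 2 ≠ 0) {f : ℝ[X][X]}
    (h : {a : E3 | On s a ∧ ev f a = 0}.Infinite) : conic s ∣ f := by
  have hD : 0 < s 1 ^ 2 + s 2 ^ 2 := by positivity
  set R := f %ₘ conic s with hR
  have hfR : R + conic s * (f /ₘ conic s) = f := modByMonic_add_div f (conic s)
  have hdeg : R.natDegree ≤ 1 := by
    have h1 := natDegree_modByMonic_lt f (conic_monic s) (by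
      intro h1
      have := conic_natDegree s
      rw [h1] at this
      simp at this)
    rw [conic_natDegree, ← hR] at h1
    omega
  set A := R.coeff 1 with hA
  set B := R.coeff 0 with hB
  have hRe : R = C A * X + C B := eq_X_add_C_of_natDegree_le_one hdeg
  have hRev : ∀ x y : ℝ, R.evalEval x y = A.eval x * y + B.eval x := by
    intro x y
    rw [hRe, evalEval_add, evalEval_mul, evalEval_X, evalEval_C, evalEval_C]
  have hpt : ∀ a ∈ {a : E3 | On s a ∧ ev f a = 0}, A.eval (a 0) * a 1 + B.eval (a 0) = 0 ∧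
      (a 1) ^ 2 + ((pp s).eval (a 0) * a 1 + (qq s).eval (a 0)) = 0 := by
    rintro a ⟨ha, hf⟩
    have h1 := conic_on h2 ha
    have h3 : (conic s).evalEval (a 0) (a 1) = 0 := h1
    have h4 : f.evalEval (a 0) (a 1) = 0 := hf
    rw [← hfR, evalEval_add, evalEval_mul, h3, zero_mul, add_zero, hRev] at h4
    rw [conic_ev] at h3
    exact ⟨h4, h3⟩
  -- infinitely many abscissae
  have hinf : ((fun a : E3 => a 0) '' {a : E3 | On s a ∧ ev f a = 0}).Infinite := by
    intro hfin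
    apply h
    refine (finite_of_coords (G := fun x => {y | (X ^ 2 + (C ((pp s).eval x) * X +
      C ((qq s).eval x)) : ℝ[X]).eval y = 0}) hfin fun x => roots_finite ?_).subset ?_
    · exact (monic_X_pow_add (lt_of_le_of_lt (degree_linear_le) (by norm_num))).ne_zero
    · intro a ha
      refine ⟨(on_iff.1 ha.1).1, ⟨a, ha, rfl⟩, ?_⟩
      have := (hpt a ha).2
      simpa using this
  have hW : B ^ 2 - pp s * A * B + qq s * A ^ 2 = 0 := by
    apply eq_zero_of_inf
    refine hinf.mono ?_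
    rintro _ ⟨a, ha, rfl⟩
    obtain ⟨h3, h4⟩ := hpt a ha
    change eval (a 0) _ = 0
    simp only [eval_add, eval_sub, eval_mul, eval_pow]
    have h5 : B.eval (a 0) = -(A.eval (a 0) * a 1) := by linarith
    rw [h5]
    linear_combination (A.eval (a 0)) ^ 2 * h4
  have hA0 : A = 0 := by
    apply eq_zero_of_inf
    refine (Set.Ioi_infinite (1 : ℝ)).mono ?_
    intro x hx
    have hx : 1 < x := hx
    change eval x A = 0
    by_contra hne
    have h3 := congrArg (eval x) hW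
    simp only [eval_add, eval_sub, eval_mul, eval_pow, eval_zero] at h3
    have h4 : (conic s).evalEval x (-(B.eval x) / A.eval x) = 0 := by
      rw [conic_ev]
      field_simp
      linear_combination h3
    have h5 := conic_eq h2 x (-(B.eval x) / A.eval x)
    rw [h4, mul_zero] at h5
    have h6 : 0 < s 2 ^ 2 := by positivity
    nlinarith [sq_nonneg (-(B.eval x) / A.eval x), sq_nonneg ((s 0 ^ 2 + s 1 ^ 2 + s 2 ^ 2) / 2 -
      s 0 * x - s 1 * (-(B.eval x) / A.eval x)), mul_pos h6 (by nlinarith : 0 < x ^ 2 - 1),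
      mul_nonneg h6.le (sq_nonneg (-(B.eval x) / A.eval x))]
  have hB0 : B = 0 := by
    apply eq_zero_of_inf
    refine hinf.mono ?_
    rintro _ ⟨a, ha, rfl⟩
    have h3 := (hpt a ha).1
    rw [hA0, eval_zero, zero_mul, zero_add] at h3
    exact h3
  refine ⟨f /ₘ conic s, ?_⟩
  rw [hA0, hB0, C_0, zero_mul, zero_add] at hRe
  rw [hRe, zero_add] at hfR
  exact hfR.symm

/-! ### the line of a vertical circle -/

/-- the height of the vertical plane, solved for the second coordinate -/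
noncomputable def ll (s : E3) : ℝ[X] :=
  C (1 / s 1) * (C ((s 0 ^ 2 + s 1 ^ 2 + s 2 ^ 2) / 2) - C (s 0) * X)

theorem ll_eval {s : E3} (h1 : s 1 ≠ 0) (x : ℝ) :
    s 1 * (ll s).eval x = (s 0 ^ 2 + s 1 ^ 2 + s 2 ^ 2) / 2 - s 0 * x := by
  unfold ll
  simp only [eval_mul, eval_sub, eval_C, eval_X]
  field_simp

theorem line_ev (s : E3) (x y : ℝ) : (X - C (ll s) : ℝ[X][X]).evalEval x y =
    y - (ll s).eval x := by
  rw [evalEval_sub, evalEval_X, evalEval_C]

/-- evaluation on a graph -/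
theorem eval_graph (f : ℝ[X][X]) (p : ℝ[X]) (x : ℝ) :
    (f.eval p).eval x = f.evalEval x (p.eval x) := by
  have h := modByMonic_add_div f (X - C p)
  rw [modByMonic_X_sub_C_eq_C_eval] at h
  conv_rhs => rw [← h]
  rw [evalEval_add, evalEval_C, evalEval_mul, evalEval_sub, evalEval_X, evalEval_C, sub_self,
    zero_mul, add_zero]

theorem line_dvd {s : E3} (h1 : s 1 ≠ 0) (h2 : s 2 = 0) {f : ℝ[X][X]}
    (h : {a : E3 | On s a ∧ ev f a = 0}.Infinite) : (X - C (ll s)) ∣ f := by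
  rw [dvd_iff_isRoot, IsRoot.def]
  have hpt : ∀ a ∈ {a : E3 | On s a ∧ ev f a = 0}, a 1 = (ll s).eval (a 0) := by
    rintro a ⟨ha, -⟩
    have h3 := (on_iff.1 ha).2
    have h4 := ll_eval h1 (a 0)
    rw [h2] at h3 h4
    exact mul_left_cancel₀ h1 (by linarith)
  have hinf : ((fun a : E3 => a 0) '' {a : E3 | On s a ∧ ev f a = 0}).Infinite := by
    intro hfin
    apply h
    refine (finite_of_coords (G := fun x => {(ll s).eval x}) hfin
      fun x => Set.finite_singleton _).subset ?_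
    intro a ha
    exact ⟨(on_iff.1 ha.1).1, ⟨a, ha, rfl⟩, hpt a ha⟩
  apply eq_zero_of_inf
  refine hinf.mono ?_
  rintro _ ⟨a, ha, rfl⟩
  have h3 : f.evalEval (a 0) (a 1) = 0 := ha.2
  rw [hpt a ha] at h3
  change eval (a 0) (eval (ll s) f) = 0
  rw [eval_graph, h3]

/-! ### the induction -/

/-- the circles inside the zero set of a product -/
theorem inf_mul {s : E3} {f g : ℝ[X][X]} (h : {a : E3 | On s a ∧ ev (f * g) a = 0}.Infinite) :
    {a : E3 | On s a ∧ ev f a = 0}.Infinite ∨ {a : E3 | On s a ∧ ev g a = 0}.Infinite := by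
  by_contra hcon
  rw [not_or, Set.not_infinite, Set.not_infinite] at hcon
  apply h
  refine (hcon.1.union hcon.2).subset ?_
  rintro a ⟨ha, h0⟩
  have h0 : (f * g).evalEval (a 0) (a 1) = 0 := h0
  rw [evalEval_mul] at h0
  rcases mul_eq_zero.1 h0 with h1 | h1
  · exact Or.inl ⟨ha, h1⟩
  · exact Or.inr ⟨ha, h1⟩

/-- a factor belonging to a circle, and the circles inside its zero set -/
theorem exists_factor {s : E3} (hs : s 1 ≠ 0 ∨ s 2 ≠ 0) {f : ℝ[X][X]}
    (h : {a : E3 | On s a ∧ ev f a = 0}.Infinite) :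
    ∃ q : ℝ[X][X], q.Monic ∧ 0 < q.natDegree ∧ q ∣ f ∧ ∃ T : Finset E3, T.card ≤ q.natDegree ∧
      ∀ r : E3, r ≠ 0 → {a : E3 | On r a ∧ ev q a = 0}.Infinite → r ∈ T := by
  classical
  have hs0 : s ≠ 0 := by
    rintro rfl
    rcases hs with h | h <;> exact h rfl
  by_cases h2 : s 2 = 0
  · have h1 : s 1 ≠ 0 := hs.resolve_right (fun h => h h2)
    refine ⟨X - C (ll s), monic_X_sub_C _, by rw [natDegree_X_sub_C]; exact one_pos,
      line_dvd h1 h2 h, {s}, by rw [natDegree_X_sub_C, Finset.card_singleton], fun r hr hinf => ?_⟩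
    rw [Finset.mem_singleton]
    refine circle_unique hr hs0 (hinf.mono ?_)
    rintro a ⟨ha, h0⟩
    refine ⟨ha, on_iff.2 ⟨(on_iff.1 ha).1, ?_⟩⟩
    have h0 : (X - C (ll s) : ℝ[X][X]).evalEval (a 0) (a 1) = 0 := h0
    rw [line_ev] at h0
    have h4 := ll_eval h1 (a 0)
    rw [h2] at h4 ⊢
    have h5 : a 1 = (ll s).eval (a 0) := by linarith
    rw [← h5] at h4
    linarith
  · refine ⟨conic s, conic_monic s, by rw [conic_natDegree]; norm_num, conic_dvd h2 h,
      {s, mir s}, by rw [conic_natDegree]; exact Finset.card_le_two, fun r hr hinf => ?_⟩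
    have hm0 : mir s ≠ 0 := by
      intro h0
      have h3 : mir s 2 = (0 : E3) 2 := by rw [h0]
      have e2 : mir s 2 = -s 2 := rfl
      rw [e2] at h3
      exact h2 (neg_eq_zero.1 h3)
    have hsub : {a : E3 | On r a ∧ ev (conic s) a = 0} ⊆
        {a : E3 | On r a ∧ On s a} ∪ {a : E3 | On r a ∧ On (mir s) a} := by
      rintro a ⟨ha, h0⟩
      rcases conic_off h2 (on_iff.1 ha).1 h0 with h1 | h1
      · exact Or.inl ⟨ha, h1⟩
      · exact Or.inr ⟨ha, h1⟩
    have h3 := hinf.mono hsub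
    rw [Set.infinite_union] at h3
    rw [Finset.mem_insert, Finset.mem_singleton]
    rcases h3 with h4 | h4
    · exact Or.inl (circle_unique hr hs0 h4)
    · exact Or.inr (circle_unique hr hm0 h4)

theorem bad_off_axis : ∀ (n : ℕ) (f : ℝ[X][X]), f ≠ 0 → f.natDegree = n →
    ∃ T : Finset E3, T.card ≤ n ∧ ∀ s : E3, (s 1 ≠ 0 ∨ s 2 ≠ 0) →
      {a : E3 | On s a ∧ ev f a = 0}.Infinite → s ∈ T := by
  classical
  intro n
  induction n using Nat.strong_induction_on with
  | _ n ih =>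
    intro f hf hn
    by_cases hex : ∃ s : E3, (s 1 ≠ 0 ∨ s 2 ≠ 0) ∧ {a : E3 | On s a ∧ ev f a = 0}.Infinite
    · obtain ⟨s, hs, hinf⟩ := hex
      obtain ⟨q, hq, hq0, ⟨g, rfl⟩, T, hT, hT'⟩ := exists_factor hs hinf
      have hg : g ≠ 0 := right_ne_zero_of_mul hf
      have hdeg : (q * g).natDegree = q.natDegree + g.natDegree :=
        natDegree_mul hq.ne_zero hg
      obtain ⟨T', hT1, hT2⟩ := ih g.natDegree (by omega) g hg rfl
      refine ⟨T ∪ T', (Finset.card_union_le _ _).trans (by omega), fun r hr hr' => ?_⟩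
      rw [Finset.mem_union]
      have hr0 : r ≠ 0 := by
        rintro rfl
        rcases hr with h | h <;> exact h rfl
      rcases inf_mul hr' with h1 | h1
      · exact Or.inl (hT' r hr0 h1)
      · exact Or.inr (hT2 r hr h1)
    · refine ⟨∅, by simp, fun r hr hr' => ?_⟩
      exact absurd ⟨r, hr, hr'⟩ hex

/-- circles in planes orthogonal to the first axis -/
theorem bad_axis {f : ℝ[X][X]} (i : ℕ) {s : E3} (hs : s ≠ 0) (h1 : s 1 = 0)
    (h2 : s 2 = 0) (h : {a : E3 | On s a ∧ ev f a = 0}.Infinite) :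
    (f.coeff i).eval (s 0 / 2) = 0 := by
  have h0 : s 0 ≠ 0 := by
    intro h0
    exact hs (ext3 h0 h1 h2)
  have hpt : ∀ a ∈ {a : E3 | On s a ∧ ev f a = 0}, a 0 = s 0 / 2 := by
    rintro a ⟨ha, -⟩
    have h3 := (on_iff.1 ha).2
    rw [h1, h2] at h3
    have h4 : s 0 * (s 0) = s 0 * (2 * a 0) := by linarith
    have := mul_left_cancel₀ h0 h4
    linarith
  have hinf : ((fun a : E3 => a 1) '' {a : E3 | On s a ∧ ev f a = 0}).Infinite := by
    intro hfin
    apply h
    refine (finite_of_coords (G := fun _ => (fun a : E3 => a 1) ''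
      {a : E3 | On s a ∧ ev f a = 0}) (Set.finite_singleton (s 0 / 2)) fun _ => hfin).subset ?_
    intro a ha
    exact ⟨(on_iff.1 ha.1).1, hpt a ha, ⟨a, ha, rfl⟩⟩
  have hz : f.map (evalRingHom (s 0 / 2)) = 0 := by
    apply eq_zero_of_inf
    refine hinf.mono ?_
    rintro _ ⟨a, ha, rfl⟩
    have h3 : f.evalEval (a 0) (a 1) = 0 := ha.2
    rw [hpt a ha] at h3
    change eval (a 1) _ = 0
    rw [eval_map, eval₂_evalRingHom]
    exact h3
  have := congrArg (fun p => coeff p i) hz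
  simpa using this

/-- BAD: only few circles are contained in the zero set of a nonzero polynomial. -/
theorem bad (k : ℕ) (f : ℝ[X][X]) (hf : f ≠ 0) (hk : BD k f) :
    ∃ T : Finset E3, T.card ≤ 2 * k ∧
      ∀ s : E3, s ≠ 0 → {a : E3 | On s a ∧ ev f a = 0}.Infinite → s ∈ T := by
  classical
  obtain ⟨T, hT, hT'⟩ := bad_off_axis f.natDegree f hf rfl
  obtain ⟨i, hi⟩ : ∃ i, f.coeff i ≠ 0 := by
    by_contra hcon
    push Not at hcon
    exact hf (Polynomial.ext fun i => by rw [hcon i, coeff_zero])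
  refine ⟨T ∪ (f.coeff i).roots.toFinset.image (fun t => (!₂[2 * t, 0, 0] : E3)), ?_, ?_⟩
  · refine (Finset.card_union_le _ _).trans ?_
    have h1 : ((f.coeff i).roots.toFinset.image (fun t => (!₂[2 * t, 0, 0] : E3))).card ≤ k :=
      Finset.card_image_le.trans ((Multiset.toFinset_card_le _).trans
        ((card_roots' _).trans (hk.2 i)))
    have h2 := hk.1
    omega
  · intro s hs hinf
    rw [Finset.mem_union]
    by_cases h12 : s 1 ≠ 0 ∨ s 2 ≠ 0
    · exact Or.inl (hT' s h12 hinf)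
    · right
      push Not at h12
      have h3 := bad_axis i hs h12.1 h12.2 hinf
      rw [Finset.mem_image]
      refine ⟨s 0 / 2, ?_, ?_⟩
      · rw [Multiset.mem_toFinset, mem_roots hi]
        exact h3
      · refine ext3 ?_ h12.1.symm h12.2.symm
        change 2 * (s 0 / 2) = s 0
        ring

end Pool.Agent.Helper72.SE
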