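import Pool.Agent.Helper27.SE.Defs

/-!
# Module SE-BAD, part 1: three common points determine the circle
-/

set_option autoImplicit false

open Polynomial

namespace Pool.Agent.Helper72.SE

open Pool.Agent.Helper27.SE

theorem on_iff {s a : E3} : On s a ↔ a 0 ^ 2 + a 1 ^ 2 + a 2 ^ 2 = 1 ∧
    s 0 ^ 2 + s 1 ^ 2 + s 2 ^ 2 = 2 * (s 0 * a 0 + s 1 * a 1 + s 2 * a 2) := by
  have h1 : ‖a‖ = 1 ↔ a 0 ^ 2 + a 1 ^ 2 + a 2 ^ 2 = 1 := by
    rw [← Fin.sum_univ_three (fun i => a i ^ 2), ← EuclideanSpace.real_norm_sq_eq]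
    exact (pow_eq_one_iff_of_nonneg (norm_nonneg a) two_ne_zero).symm
  have h2 : ‖s - a‖ = 1 ↔ (s 0 - a 0) ^ 2 + (s 1 - a 1) ^ 2 + (s 2 - a 2) ^ 2 = 1 := by
    have e : ‖s - a‖ ^ 2 = (s 0 - a 0) ^ 2 + (s 1 - a 1) ^ 2 + (s 2 - a 2) ^ 2 := by
      rw [EuclideanSpace.real_norm_sq_eq, Fin.sum_univ_three]
      simp only [PiLp.sub_apply]
    rw [← e]
    exact (pow_eq_one_iff_of_nonneg (norm_nonneg _) two_ne_zero).symm
  unfold On
  rw [h1, h2]
  constructor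
  · rintro ⟨h3, h4⟩
    exact ⟨h3, by linarith⟩
  · rintro ⟨h3, h4⟩
    exact ⟨h3, by linarith⟩

theorem ext3 {a b : E3} (h0 : a 0 = b 0) (h1 : a 1 = b 1) (h2 : a 2 = b 2) : a = b := by
  ext i
  fin_cases i
  · exact h0
  · exact h1
  · exact h2

theorem ne_zero_iff {s : E3} (hs : s ≠ 0) : 0 < s 0 ^ 2 + s 1 ^ 2 + s 2 ^ 2 := by
  by_contra h
  apply hs
  have h0 : s 0 = 0 := by nlinarith [sq_nonneg (s 0), sq_nonneg (s 1), sq_nonneg (s 2)]
  have h1 : s 1 = 0 := by nlinarith [sq_nonneg (s 0), sq_nonneg (s 1), sq_nonneg (s 2)]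
  have h2 : s 2 = 0 := by nlinarith [sq_nonneg (s 0), sq_nonneg (s 1), sq_nonneg (s 2)]
  exact ext3 h0 h1 h2

/-- three common points determine the circle -/
theorem circle_unique {s r : E3} (hs : s ≠ 0) (hr : r ≠ 0)
    (h : {a : E3 | On s a ∧ On r a}.Infinite) : s = r := by
  obtain ⟨a, ha⟩ := h.nonempty
  obtain ⟨b, hb, hab⟩ := (h.sdiff (Set.finite_singleton a)).nonempty
  obtain ⟨c, hc, hac⟩ := (h.sdiff ((Set.finite_singleton a).union (Set.finite_singleton b))).nonempty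
  have hab : b ≠ a := hab
  have hac1 : c ≠ a := fun h => hac (Or.inl h)
  have hac2 : c ≠ b := fun h => hac (Or.inr h)
  obtain ⟨ha1, ha2⟩ := on_iff.1 ha.1
  obtain ⟨-, ha3⟩ := on_iff.1 ha.2
  obtain ⟨hb1, hb2⟩ := on_iff.1 hb.1
  obtain ⟨-, hb3⟩ := on_iff.1 hb.2
  obtain ⟨hc1, hc2⟩ := on_iff.1 hc.1
  obtain ⟨-, hc3⟩ := on_iff.1 hc.2
  have hs0 := ne_zero_iff hs
  have hr0 := ne_zero_iff hr
  -- the cross product
  set n0 := s 1 * r 2 - s 2 * r 1 with hn0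
  set n1 := s 2 * r 0 - s 0 * r 2 with hn1
  set n2 := s 0 * r 1 - s 1 * r 0 with hn2
  by_cases hn : n0 ^ 2 + n1 ^ 2 + n2 ^ 2 = 0
  · have e0 : n0 = 0 := by nlinarith [sq_nonneg n0, sq_nonneg n1, sq_nonneg n2]
    have e1 : n1 = 0 := by nlinarith [sq_nonneg n0, sq_nonneg n1, sq_nonneg n2]
    have e2 : n2 = 0 := by nlinarith [sq_nonneg n0, sq_nonneg n1, sq_nonneg n2]
    -- r = λ s with λ = <s,r>/|s|^2
    set S := s 0 ^ 2 + s 1 ^ 2 + s 2 ^ 2 with hS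
    set L := s 0 * r 0 + s 1 * r 1 + s 2 * r 2 with hL
    have f0 : S * r 0 = L * s 0 := by
      rw [hS, hL]; linear_combination (s 2) * e1 - (s 1) * e2
    have f1 : S * r 1 = L * s 1 := by
      rw [hS, hL]; linear_combination (s 0) * e2 - (s 2) * e0
    have f2 : S * r 2 = L * s 2 := by
      rw [hS, hL]; linear_combination (s 1) * e0 - (s 0) * e1
    -- now |r|^2 = 2<r,a>
    have g1 : S ^ 2 * (r 0 ^ 2 + r 1 ^ 2 + r 2 ^ 2) = L ^ 2 * S := by
      rw [hS] at f0 f1 f2 ⊢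
      linear_combination (S * r 0 + L * s 0) * f0 + (S * r 1 + L * s 1) * f1 +
        (S * r 2 + L * s 2) * f2
    have g2 : S * (r 0 ^ 2 + r 1 ^ 2 + r 2 ^ 2) = L * S := by
      linear_combination S * ha3 + 2 * (a 0 * f0 + a 1 * f1 + a 2 * f2) - L * ha2
    have hLS : L = S := by
      have h3 : S * (L * S) = L ^ 2 * S := by rw [← g1, ← g2]; ring
      have hR : 0 < r 0 ^ 2 + r 1 ^ 2 + r 2 ^ 2 := hr0
      have hL0 : L ≠ 0 := by
        intro h0
        rw [h0, zero_mul] at g2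
        have := mul_pos hs0 hR
        linarith
      have h4 : (L * S) * (S - L) = 0 := by linear_combination h3
      rcases mul_eq_zero.1 h4 with h5 | h5
      · exact absurd h5 (mul_ne_zero hL0 hs0.ne')
      · linarith
    rw [hLS] at f0 f1 f2
    exact ext3 (mul_left_cancel₀ hs0.ne' f0).symm (mul_left_cancel₀ hs0.ne' f1).symm
      (mul_left_cancel₀ hs0.ne' f2).symm
  · exfalso
    set K := n0 ^ 2 + n1 ^ 2 + n2 ^ 2 with hK
    have key : ∀ d : E3, d 0 ^ 2 + d 1 ^ 2 + d 2 ^ 2 = 1 →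
        s 0 ^ 2 + s 1 ^ 2 + s 2 ^ 2 = 2 * (s 0 * d 0 + s 1 * d 1 + s 2 * d 2) →
        r 0 ^ 2 + r 1 ^ 2 + r 2 ^ 2 = 2 * (r 0 * d 0 + r 1 * d 1 + r 2 * d 2) →
        ∃ t : ℝ, d 0 - a 0 = t * n0 ∧ d 1 - a 1 = t * n1 ∧ d 2 - a 2 = t * n2 ∧
          t * (t * K + 2 * (a 0 * n0 + a 1 * n1 + a 2 * n2)) = 0 := by
      intro d hd1 hd2 hd3
      have p1 : s 0 * (d 0 - a 0) + s 1 * (d 1 - a 1) + s 2 * (d 2 - a 2) = 0 := by linarith
      have p2 : r 0 * (d 0 - a 0) + r 1 * (d 1 - a 1) + r 2 * (d 2 - a 2) = 0 := by linarith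
      set x := d 0 - a 0 with hx
      set y := d 1 - a 1 with hy
      set z := d 2 - a 2 with hz
      have q0 : x = (x * n0 + y * n1 + z * n2) / K * n0 := by
        rw [div_mul_eq_mul_div, eq_div_iff hn, hK, hn0, hn1, hn2]
        linear_combination ((s 2 * r 0 - s 0 * r 2) * s 2 - (s 0 * r 1 - s 1 * r 0) * s 1) * p2 -
          ((s 2 * r 0 - s 0 * r 2) * r 2 - (s 0 * r 1 - s 1 * r 0) * r 1) * p1
      have q1 : y = (x * n0 + y * n1 + z * n2) / K * n1 := by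
        rw [div_mul_eq_mul_div, eq_div_iff hn, hK, hn0, hn1, hn2]
        linear_combination ((s 0 * r 1 - s 1 * r 0) * s 0 - (s 1 * r 2 - s 2 * r 1) * s 2) * p2 -
          ((s 0 * r 1 - s 1 * r 0) * r 0 - (s 1 * r 2 - s 2 * r 1) * r 2) * p1
      have q2 : z = (x * n0 + y * n1 + z * n2) / K * n2 := by
        rw [div_mul_eq_mul_div, eq_div_iff hn, hK, hn0, hn1, hn2]
        linear_combination ((s 1 * r 2 - s 2 * r 1) * s 1 - (s 2 * r 0 - s 0 * r 2) * s 0) * p2 -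
          ((s 1 * r 2 - s 2 * r 1) * r 1 - (s 2 * r 0 - s 0 * r 2) * r 0) * p1
      refine ⟨_, q0, q1, q2, ?_⟩
      generalize (x * n0 + y * n1 + z * n2) / K = t at q0 q1 q2
      have e1 : x ^ 2 + y ^ 2 + z ^ 2 + 2 * (a 0 * x + a 1 * y + a 2 * z) = 0 := by
        rw [hx, hy, hz]; linarith
      rw [q0, q1, q2] at e1
      rw [hK]
      linear_combination e1
    obtain ⟨t, b0, b1, b2, bt⟩ := key b hb1 hb2 hb3
    obtain ⟨u, c0, c1, c2, cu⟩ := key c hc1 hc2 hc3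
    have ht : t ≠ 0 := by
      intro h0
      rw [h0] at b0 b1 b2
      exact hab (ext3 (by linarith) (by linarith) (by linarith))
    have hu : u ≠ 0 := by
      intro h0
      rw [h0] at c0 c1 c2
      exact hac1 (ext3 (by linarith) (by linarith) (by linarith))
    have h1 := (mul_eq_zero.1 bt).resolve_left ht
    have h2 := (mul_eq_zero.1 cu).resolve_left hu
    have h3 : t = u := mul_right_cancel₀ hn (by linarith)
    rw [← h3] at c0 c1 c2
    exact hac2 (ext3 (by linarith) (by linarith) (by linarith))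

end Pool.Agent.Helper72.SE
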